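import Pool.Agent.Work.MP_db9399_ts.OO
import Pool.Agent.Work.MP_db9399_lab_helper61.Lab

/-!
# MP_db9399, TSPLIT, block CELL (helper83): `k` halvings along trails
-/

set_option autoImplicit false

namespace Pool.Agent.Work.MP_db9399_ts.helper83

open Finset Classical
open Pool.Agent.Work.MP_db9399_ts

universe u

/-- the coefficients of the coins for tests on the ends in `X` -/
noncomputable def T2 {E V : Type u} {n : ℕ} (α : E → V) (c : E → Fin n) (π : E → E) (s : E → ℝ)
    (X : Finset E) (f : V → ℝ) (i : Fin n) (p : E) : ℝ :=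
  ∑ e ∈ X with π e = p ∧ c e = i, s e * f (α e)

/-- the coefficients of the coins for tests on the edges -/
noncomputable def T1 {E : Type u} [Fintype E] {n : ℕ} (c : E → Fin n) (π : E → E) (s : E → ℝ)
    (a : E → ℝ) (i : Fin n) (p : E) : ℝ :=
  ∑ e with π e = p ∧ c e = i, s e * a e

section

variable {E V : Type u} [Fintype E] [Fintype V] {n : ℕ}

theorem T1_sum (c : E → Fin n) (π : E → E) (s : E → ℝ) (a : E → ℝ) (i : Fin n) (ζ : E → ℝ) :
    ∑ e with c e = i, a e * (s e * ζ (π e)) = ∑ p, T1 c π s a i p * ζ p := by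
  rw [← sum_fiberwise (univ.filter fun e => c e = i) π]
  refine sum_congr rfl fun p _ => ?_
  unfold T1
  rw [sum_mul, filter_filter]
  have h : (univ.filter fun e => c e = i ∧ π e = p) = univ.filter fun e => π e = p ∧ c e = i :=
    filter_congr fun e _ => and_comm
  rw [h]
  refine sum_congr rfl fun e he => ?_
  rw [(mem_filter.mp he).2.1]
  ring

theorem sq_sum_le {ι : Type*} (A : Finset ι) (s g : ι → ℝ) (hs : ∀ e, s e = 1 ∨ s e = -1)
    (N : ℝ) (hN : (A.card : ℝ) ≤ N) : (∑ e ∈ A, s e * g e) ^ 2 ≤ N * ∑ e ∈ A, g e ^ 2 := by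
  have h1 : (∑ e ∈ A, s e * g e) ^ 2 ≤ A.card * ∑ e ∈ A, (s e * g e) ^ 2 :=
    sq_sum_le_card_mul_sum_sq
  have h2 : ∑ e ∈ A, (s e * g e) ^ 2 = ∑ e ∈ A, g e ^ 2 := by
    refine sum_congr rfl fun e _ => ?_
    rw [mul_pow]
    rcases hs e with h | h <;> rw [h] <;> ring
  rw [h2] at h1
  exact h1.trans (mul_le_mul_of_nonneg_right hN (sum_nonneg fun e _ => sq_nonneg _))

theorem T1_sq (c : E → Fin n) (π : E → E) (s : E → ℝ) (a : E → ℝ) (i : Fin n)
    (hs : ∀ e, s e = 1 ∨ s e = -1) (J : ℕ)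
    (hπ : ∀ q, (univ.filter fun e => π e = q).card ≤ 2 ^ J) :
    ∑ p, T1 c π s a i p ^ 2 ≤ 2 ^ J * ∑ e, a e ^ 2 := by
  rw [← sum_fiberwise univ π fun e => a e ^ 2, mul_sum]
  refine sum_le_sum fun p _ => ?_
  have h1 : ((univ.filter fun e => π e = p ∧ c e = i).card : ℝ) ≤ 2 ^ J := by
    have h2 : (univ.filter fun e => π e = p ∧ c e = i).card ≤ 2 ^ J := by
      refine (card_le_card ?_).trans (hπ p)
      intro e he
      exact mem_filter.mpr ⟨mem_univ _, (mem_filter.mp he).2.1⟩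
    exact_mod_cast h2
  refine (sq_sum_le _ s a hs _ h1).trans ?_
  refine mul_le_mul_of_nonneg_left ?_ (by positivity)
  refine sum_le_sum_of_subset_of_nonneg ?_ fun e _ _ => sq_nonneg _
  intro e he
  exact mem_filter.mpr ⟨mem_univ _, (mem_filter.mp he).2.1⟩

theorem T2_sum (α : E → V) (c : E → Fin n) (π : E → E) (s : E → ℝ) (X : Finset E) (f : V → ℝ)
    (i : Fin n) (ζ : E → ℝ)
    (h : ∀ v, ∑ e with α e = v ∧ c e = i, s e * ζ (π e) =
      ∑ e ∈ X with α e = v ∧ c e = i, s e * ζ (π e)) :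
    ∑ v, f v * ∑ e with α e = v ∧ c e = i, s e * ζ (π e) =
      ∑ p, T2 α c π s X f i p * ζ p := by
  have h1 : ∀ v, f v * ∑ e with α e = v ∧ c e = i, s e * ζ (π e) =
      ∑ e ∈ (X.filter fun e => c e = i) with α e = v, f (α e) * (s e * ζ (π e)) := by
    intro v
    rw [h v, mul_sum, filter_filter]
    have h2 : (X.filter fun e => c e = i ∧ α e = v) = X.filter fun e => α e = v ∧ c e = i :=
      filter_congr fun e _ => and_comm
    rw [h2]
    refine sum_congr rfl fun e he => ?_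
    rw [(mem_filter.mp he).2.1]
  simp only [h1]
  rw [sum_fiberwise (X.filter fun e => c e = i) α, ← sum_fiberwise (X.filter fun e => c e = i) π]
  refine sum_congr rfl fun p _ => ?_
  unfold T2
  rw [sum_mul, filter_filter]
  have h3 : (X.filter fun e => c e = i ∧ π e = p) = X.filter fun e => π e = p ∧ c e = i :=
    filter_congr fun e _ => and_comm
  rw [h3]
  refine sum_congr rfl fun e he => ?_
  rw [(mem_filter.mp he).2.1]
  ring

theorem T2_sq (α : E → V) (c : E → Fin n) (π : E → E) (s : E → ℝ) (X : Finset E) (f : V → ℝ)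
    (i : Fin n) (hs : ∀ e, s e = 1 ∨ s e = -1) (J : ℕ)
    (h2 : ∀ q, (X.filter fun e => π e = q).card ≤ 2)
    (hX : ∀ v, (2 : ℝ) ^ J * ((X.filter fun e => α e = v ∧ c e = i).card : ℝ) ≤
      ((univ.filter fun e => α e = v).card : ℝ) + 3 * 2 ^ J) :
    ∑ p, T2 α c π s X f i p ^ 2 ≤
      ∑ v, f v ^ 2 * (2 * (((univ.filter fun e => α e = v).card : ℝ) / 2 ^ J + 3)) := by
  have hJ : (0 : ℝ) < 2 ^ J := by positivity
  have h3 : ∀ p, T2 α c π s X f i p ^ 2 ≤
      2 * ∑ e ∈ (X.filter fun e => c e = i) with π e = p, f (α e) ^ 2 := by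
    intro p
    have h4 : ((X.filter fun e => π e = p ∧ c e = i).card : ℝ) ≤ 2 := by
      have h5 : (X.filter fun e => π e = p ∧ c e = i).card ≤ 2 := by
        refine (card_le_card ?_).trans (h2 p)
        intro e he
        exact mem_filter.mpr ⟨(mem_filter.mp he).1, (mem_filter.mp he).2.1⟩
      exact_mod_cast h5
    refine (sq_sum_le _ s (fun e => f (α e)) hs _ h4).trans ?_
    rw [filter_filter]
    have h6 : (X.filter fun e => c e = i ∧ π e = p) = X.filter fun e => π e = p ∧ c e = i :=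
      filter_congr fun e _ => and_comm
    rw [h6]
  refine (sum_le_sum fun p _ => h3 p).trans ?_
  rw [← mul_sum, sum_fiberwise (X.filter fun e => c e = i) π,
    ← sum_fiberwise (X.filter fun e => c e = i) α, mul_sum]
  refine sum_le_sum fun v _ => ?_
  have h7 : ∑ e ∈ (X.filter fun e => c e = i) with α e = v, f (α e) ^ 2 =
      ((X.filter fun e => α e = v ∧ c e = i).card : ℝ) * f v ^ 2 := by
    rw [filter_filter]
    have h8 : (X.filter fun e => c e = i ∧ α e = v) = X.filter fun e => α e = v ∧ c e = i :=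
      filter_congr fun e _ => and_comm
    rw [h8, ← nsmul_eq_mul, ← sum_const]
    refine sum_congr rfl fun e he => ?_
    rw [(mem_filter.mp he).2.1]
  rw [h7]
  have h9 : ((X.filter fun e => α e = v ∧ c e = i).card : ℝ) ≤
      ((univ.filter fun e => α e = v).card : ℝ) / 2 ^ J + 3 := by
    have h10 : ((X.filter fun e => α e = v ∧ c e = i).card : ℝ) ≤
        (((univ.filter fun e => α e = v).card : ℝ) + 3 * 2 ^ J) / 2 ^ J := by
      rw [le_div_iff₀ hJ]
      linarith [hX v]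
    rwa [add_div, mul_div_assoc, div_self hJ.ne', mul_one] at h10
  calc 2 * (((X.filter fun e => α e = v ∧ c e = i).card : ℝ) * f v ^ 2)
      = f v ^ 2 * (2 * ((X.filter fun e => α e = v ∧ c e = i).card : ℝ)) := by ring
    _ ≤ _ := by
      refine mul_le_mul_of_nonneg_left ?_ (sq_nonneg _)
      linarith

/-- supports of the tests on edges -/
theorem T1_sp (c : E → Fin n) (π : E → E) (s : E → ℝ) (a : E → ℝ) (i : Fin n) :
    (univ.filter fun p => T1 c π s a i p ≠ 0).card ≤ (univ.filter fun e => a e ≠ 0).card := by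
  refine le_trans (card_le_card (t := (univ.filter fun e => a e ≠ 0).image π) ?_) card_image_le
  intro p hp
  have h1 := (mem_filter.mp hp).2
  unfold T1 at h1
  obtain ⟨e, he, hne⟩ := exists_ne_zero_of_sum_ne_zero h1
  exact mem_image.mpr ⟨e, mem_filter.mpr ⟨mem_univ _, right_ne_zero_of_mul hne⟩,
    (mem_filter.mp he).2.1⟩

/-- supports of the tests on vertices -/
theorem T2_sp (α : E → V) (c : E → Fin n) (π : E → E) (s : E → ℝ) (X : Finset E) (f : V → ℝ)
    (i : Fin n) (S D : ℝ) (hD0 : 0 ≤ D) (hS : ((univ.filter fun v => f v ≠ 0).card : ℝ) ≤ S)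
    (hD : ∀ v, ((univ.filter fun e => α e = v).card : ℝ) ≤ D) :
    ((univ.filter fun p => T2 α c π s X f i p ≠ 0).card : ℝ) ≤ S * D := by
  have h1 : (univ.filter fun p => T2 α c π s X f i p ≠ 0).card ≤
      (univ.filter fun e => f (α e) ≠ 0).card := by
    refine le_trans (card_le_card (t := (univ.filter fun e => f (α e) ≠ 0).image π) ?_)
      card_image_le
    intro p hp
    have h1 := (mem_filter.mp hp).2
    unfold T2 at h1
    obtain ⟨e, he, hne⟩ := exists_ne_zero_of_sum_ne_zero h1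
    exact mem_image.mpr ⟨e, mem_filter.mpr ⟨mem_univ _, right_ne_zero_of_mul hne⟩,
      (mem_filter.mp he).2.1⟩
  have h2 : (univ.filter fun e => f (α e) ≠ 0).card =
      ∑ v ∈ univ.filter (fun v => f v ≠ 0), (univ.filter fun e => α e = v).card := by
    rw [card_eq_sum_card_fiberwise (f := α) (t := univ.filter fun v => f v ≠ 0)]
    · refine sum_congr rfl fun v hv => ?_
      rw [filter_filter]
      refine congrArg card (filter_congr fun e _ => ?_)
      constructor
      · exact fun h => h.2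
      · intro h
        exact ⟨by rw [h]; exact (mem_filter.mp hv).2, h⟩
    · intro e he
      exact mem_coe.mpr (mem_filter.mpr ⟨mem_univ _, (mem_filter.mp (mem_coe.mp he)).2⟩)
  have h3 : ((univ.filter fun e => f (α e) ≠ 0).card : ℝ) ≤
      ((univ.filter fun v => f v ≠ 0).card : ℝ) * D := by
    rw [h2]
    push_cast
    rw [← nsmul_eq_mul]
    exact sum_le_card_nsmul _ _ _ fun v _ => hD v
  calc ((univ.filter fun p => T2 α c π s X f i p ≠ 0).card : ℝ)
      ≤ ((univ.filter fun e => f (α e) ≠ 0).card : ℝ) := by exact_mod_cast h1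
    _ ≤ ((univ.filter fun v => f v ≠ 0).card : ℝ) * D := h3
    _ ≤ S * D := mul_le_mul_of_nonneg_right hS hD0

omit [Fintype E] in
/-- multiplicities -/
theorem mult {τ : Type u} [Fintype τ] (c : E → Fin n) (Y : Finset E) (g : τ → E → Prop)
    (S N : ℝ) (hS0 : 0 ≤ S) (hS : ∀ e, ∀ U : Finset τ, (∀ t ∈ U, g t e) → (U.card : ℝ) ≤ S)
    (hY : (Y.card : ℝ) ≤ N) (Z : Finset (τ × Fin n))
    (hQ : ∀ z ∈ Z, ∃ e ∈ Y, g z.1 e ∧ c e = z.2) : (Z.card : ℝ) ≤ N * S := by
  have h1 : Z.card ≤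
      ∑ e ∈ Y, (univ.filter fun t => g t e).card := by
    refine le_trans (card_le_card
      (t := Y.biUnion fun e => (univ.filter fun t => g t e).image fun t => (t, c e)) ?_) ?_
    · intro z hz
      obtain ⟨e, he, h2, h3⟩ := hQ z hz
      refine mem_biUnion.mpr ⟨e, he, mem_image.mpr ⟨z.1, mem_filter.mpr ⟨mem_univ _, h2⟩, ?_⟩⟩
      rw [h3]
    · exact card_biUnion_le.trans (sum_le_sum fun e _ => card_image_le)
  have h2 : ((Z.card : ℕ) : ℝ) ≤
      ∑ e ∈ Y, ((univ.filter fun t => g t e).card : ℝ) := by exact_mod_cast h1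
  refine h2.trans ?_
  have h3 := sum_le_card_nsmul Y (fun e => ((univ.filter fun t => g t e).card : ℝ)) S
    fun e _ => hS e _ fun t ht => (mem_filter.mp ht).2
  rw [nsmul_eq_mul] at h3
  exact h3.trans (mul_le_mul_of_nonneg_right hY hS0)

end

/-- One halving. -/
theorem half (hT : Stmt_TRAIL.{u}) {E V τ τ' : Type u} [Fintype E] [Fintype V] [Fintype τ]
    [Fintype τ'] (α β : E → V) {n : ℕ} (c : E → Fin n) (a : τ → E → ℝ) (f : τ' → V → ℝ)
    (J : ℕ) (S D Λ : ℝ) (hS0 : 0 ≤ S) (hD2 : 2 ≤ D) (hJD : (2 : ℝ) ^ J ≤ D) (hΛ : 0 ≤ Λ)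
    (hL : 32 * Real.exp (-Λ) * (S * D + 1) * (4 * (3 * (S * D)) + 1) ≤ 1)
    (hα : ∀ v, ((univ.filter fun e => α e = v).card : ℝ) ≤ D)
    (hβ : ∀ v, ((univ.filter fun e => β e = v).card : ℝ) ≤ D)
    (ha1 : ∀ t, ((univ.filter fun e => a t e ≠ 0).card : ℝ) ≤ S)
    (ha2 : ∀ e, ((univ.filter fun t => a t e ≠ 0).card : ℝ) ≤ S)
    (hf1 : ∀ t, ((univ.filter fun v => f t v ≠ 0).card : ℝ) ≤ S)
    (hf2 : ∀ v, ((univ.filter fun t => f t v ≠ 0).card : ℝ) ≤ S) :
    ∃ ε : E → ℝ, (∀ e, ε e = 1 ∨ ε e = -1) ∧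
      (∀ t i, |∑ e with c e = i, a t e * ε e| ≤
        2 * (Real.sqrt (32 * Λ) + 1) * Real.sqrt (2 ^ J * ∑ e, a t e ^ 2)) ∧
      (∀ t i, |∑ v, f t v * ∑ e with α e = v ∧ c e = i, ε e| ≤
        2 * (Real.sqrt (32 * Λ) + 1) * Real.sqrt (∑ v, f t v ^ 2 *
          (2 * (((univ.filter fun e => α e = v).card : ℝ) / 2 ^ J + 3)))) ∧
      (∀ t i, |∑ v, f t v * ∑ e with β e = v ∧ c e = i, ε e| ≤
        2 * (Real.sqrt (32 * Λ) + 1) * Real.sqrt (∑ v, f t v ^ 2 *
          (2 * (((univ.filter fun e => β e = v).card : ℝ) / 2 ^ J + 3)))) := by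
  obtain ⟨π, s, XA, XB, hs, hπ, hX2, hXA, hXB, hsA, hsB⟩ :=
    hT (E := E) (A := V × Fin n) (B := V × Fin n) (fun e => (α e, c e)) (fun e => (β e, c e)) J
  have hD0 : 0 ≤ D := by linarith
  have hSD : 0 ≤ S * D := mul_nonneg hS0 hD0
  -- the family of tests
  set a' : (τ × Fin n) ⊕ ((τ' × Fin n) ⊕ (τ' × Fin n)) → E → ℝ := fun q p =>
    match q with
    | Sum.inl z => T1 c π s (a z.1) z.2 p
    | Sum.inr (Sum.inl z) => T2 α c π s XA (f z.1) z.2 p
    | Sum.inr (Sum.inr z) => T2 β c π s XB (f z.1) z.2 p with ha'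
  have hA2 : ∀ q, (XA.filter fun e => π e = q).card ≤ 2 := fun q => by
    have := hX2 q
    omega
  have hB2 : ∀ q, (XB.filter fun e => π e = q).card ≤ 2 := fun q => by
    have := hX2 q
    omega
  have hSp : ∀ q, ((univ.filter fun p => a' q p ≠ 0).card : ℝ) ≤ S * D := by
    rintro (z | z | z)
    · have h1 : ((univ.filter fun p => a' (Sum.inl z) p ≠ 0).card : ℝ) ≤
          ((univ.filter fun e => a z.1 e ≠ 0).card : ℝ) := by
        exact_mod_cast T1_sp c π s (a z.1) z.2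
      refine h1.trans ((ha1 z.1).trans ?_)
      nlinarith
    · exact T2_sp α c π s XA (f z.1) z.2 S D hD0 (hf1 z.1) hα
    · exact T2_sp β c π s XB (f z.1) z.2 S D hD0 (hf1 z.1) hβ
  have hMu : ∀ p, ((univ.filter fun q => a' q p ≠ 0).card : ℝ) ≤ 3 * (S * D) := by
    intro p
    have h1 : ((univ.filter fun z : τ × Fin n => T1 c π s (a z.1) z.2 p ≠ 0).card : ℝ) ≤
        D * S := by
      refine mult c (univ.filter fun e => π e = p) (fun t e => a t e ≠ 0) S D hS0
        (fun e U hU => (Nat.cast_le.2 (card_le_card fun t ht =>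
          mem_filter.mpr ⟨mem_univ _, hU t ht⟩)).trans (ha2 e)) ?_ _ ?_
      · have : (((univ.filter fun e => π e = p).card : ℕ) : ℝ) ≤ 2 ^ J := by
          exact_mod_cast hπ p
        exact this.trans hJD
      · intro z hz
        replace hz := (mem_filter.mp hz).2
        unfold T1 at hz
        obtain ⟨e, he, hne⟩ := exists_ne_zero_of_sum_ne_zero hz
        obtain ⟨-, h2, h3⟩ := mem_filter.mp he
        exact ⟨e, mem_filter.mpr ⟨mem_univ _, h2⟩, right_ne_zero_of_mul hne, h3⟩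
    have h2 : ((univ.filter fun z : τ' × Fin n =>
        T2 α c π s XA (f z.1) z.2 p ≠ 0).card : ℝ) ≤ D * S := by
      refine mult c (XA.filter fun e => π e = p) (fun t e => f t (α e) ≠ 0) S D hS0
        (fun e U hU => (Nat.cast_le.2 (card_le_card fun t ht =>
          mem_filter.mpr ⟨mem_univ _, hU t ht⟩)).trans (hf2 (α e))) ?_ _ ?_
      · have : (((XA.filter fun e => π e = p).card : ℕ) : ℝ) ≤ 2 := by
          exact_mod_cast hA2 p
        exact this.trans hD2
      · intro z hz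
        replace hz := (mem_filter.mp hz).2
        unfold T2 at hz
        obtain ⟨e, he, hne⟩ := exists_ne_zero_of_sum_ne_zero hz
        obtain ⟨h0, h2, h3⟩ := mem_filter.mp he
        exact ⟨e, mem_filter.mpr ⟨h0, h2⟩, right_ne_zero_of_mul hne, h3⟩
    have h3 : ((univ.filter fun z : τ' × Fin n =>
        T2 β c π s XB (f z.1) z.2 p ≠ 0).card : ℝ) ≤ D * S := by
      refine mult c (XB.filter fun e => π e = p) (fun t e => f t (β e) ≠ 0) S D hS0
        (fun e U hU => (Nat.cast_le.2 (card_le_card fun t ht =>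
          mem_filter.mpr ⟨mem_univ _, hU t ht⟩)).trans (hf2 (β e))) ?_ _ ?_
      · have : (((XB.filter fun e => π e = p).card : ℕ) : ℝ) ≤ 2 := by
          exact_mod_cast hB2 p
        exact this.trans hD2
      · intro z hz
        replace hz := (mem_filter.mp hz).2
        unfold T2 at hz
        obtain ⟨e, he, hne⟩ := exists_ne_zero_of_sum_ne_zero hz
        obtain ⟨h0, h2, h3⟩ := mem_filter.mp he
        exact ⟨e, mem_filter.mpr ⟨h0, h2⟩, right_ne_zero_of_mul hne, h3⟩
    have h4 : (univ.filter fun q => a' q p ≠ 0) ⊆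
        ((univ.filter fun z : τ × Fin n => T1 c π s (a z.1) z.2 p ≠ 0).image Sum.inl ∪
        (univ.filter fun z : τ' × Fin n => T2 α c π s XA (f z.1) z.2 p ≠ 0).image
          fun z => Sum.inr (Sum.inl z)) ∪
        (univ.filter fun z : τ' × Fin n => T2 β c π s XB (f z.1) z.2 p ≠ 0).image
          fun z => Sum.inr (Sum.inr z) := by
      rintro (z | z | z) hz
      · exact mem_union_left _ (mem_union_left _ (mem_image_of_mem _
          (mem_filter.mpr ⟨mem_univ _, (mem_filter.mp hz).2⟩)))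
      · exact mem_union_left _ (mem_union_right _ (mem_image.mpr ⟨z,
          mem_filter.mpr ⟨mem_univ _, (mem_filter.mp hz).2⟩, rfl⟩))
      · exact mem_union_right _ (mem_image.mpr ⟨z,
          mem_filter.mpr ⟨mem_univ _, (mem_filter.mp hz).2⟩, rfl⟩)
    have h5 := card_le_card h4
    have h6 := card_union_le ((univ.filter fun z : τ × Fin n =>
      T1 c π s (a z.1) z.2 p ≠ 0).image (Sum.inl : _ →
        (τ × Fin n) ⊕ ((τ' × Fin n) ⊕ (τ' × Fin n))) ∪
        (univ.filter fun z : τ' × Fin n => T2 α c π s XA (f z.1) z.2 p ≠ 0).image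
          fun z => Sum.inr (Sum.inl z))
        ((univ.filter fun z : τ' × Fin n => T2 β c π s XB (f z.1) z.2 p ≠ 0).image
          fun z => Sum.inr (Sum.inr z))
    have h7 := card_union_le ((univ.filter fun z : τ × Fin n =>
      T1 c π s (a z.1) z.2 p ≠ 0).image (Sum.inl : _ →
        (τ × Fin n) ⊕ ((τ' × Fin n) ⊕ (τ' × Fin n))))
        ((univ.filter fun z : τ' × Fin n => T2 α c π s XA (f z.1) z.2 p ≠ 0).image
          fun z => Sum.inr (Sum.inl z))
    have h8 : ((univ.filter fun z : τ × Fin n =>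
      T1 c π s (a z.1) z.2 p ≠ 0).image (Sum.inl : _ →
        (τ × Fin n) ⊕ ((τ' × Fin n) ⊕ (τ' × Fin n)))).card ≤ _ := card_image_le
    have h9 : ((univ.filter fun z : τ' × Fin n => T2 α c π s XA (f z.1) z.2 p ≠ 0).image
          (fun z => (Sum.inr (Sum.inl z) :
        (τ × Fin n) ⊕ ((τ' × Fin n) ⊕ (τ' × Fin n))))).card ≤ _ := card_image_le
    have h10 : ((univ.filter fun z : τ' × Fin n => T2 β c π s XB (f z.1) z.2 p ≠ 0).image
          (fun z => (Sum.inr (Sum.inr z) :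
        (τ × Fin n) ⊕ ((τ' × Fin n) ⊕ (τ' × Fin n))))).card ≤ _ := card_image_le
    have h11 : (univ.filter fun q => a' q p ≠ 0).card ≤
        (univ.filter fun z : τ × Fin n => T1 c π s (a z.1) z.2 p ≠ 0).card +
        (univ.filter fun z : τ' × Fin n => T2 α c π s XA (f z.1) z.2 p ≠ 0).card +
        (univ.filter fun z : τ' × Fin n => T2 β c π s XB (f z.1) z.2 p ≠ 0).card := by
      omega
    have h12 : ((univ.filter fun q => a' q p ≠ 0).card : ℝ) ≤
        ((univ.filter fun z : τ × Fin n => T1 c π s (a z.1) z.2 p ≠ 0).card : ℝ) +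
        ((univ.filter fun z : τ' × Fin n => T2 α c π s XA (f z.1) z.2 p ≠ 0).card : ℝ) +
        ((univ.filter fun z : τ' × Fin n => T2 β c π s XB (f z.1) z.2 p ≠ 0).card : ℝ) := by
      exact_mod_cast h11
    linarith
  obtain ⟨ζ, hζ, -, -, hζt⟩ := Pool.Agent.Work.MP_db9399_lab.helper61.lab (m := 1) one_pos
    (fun e : E => e) (fun _ _ => 0) (fun _ _ => 0) (fun _ _ => le_rfl) (fun _ _ => by simp)
    (fun _ => 0) (fun _ => by simp) a' (S * D) (3 * (S * D)) Λ hSD (by linarith) hSp hMu hΛ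
    (by push_cast; linarith) 1 (fun i => by
      rw [filter_eq' univ i, if_pos (mem_univ _), card_singleton]
      norm_num)
  have hK : ∀ q, |∑ p, a' q p * ζ p| ≤
      2 * (Real.sqrt (32 * Λ) + 1) * Real.sqrt (∑ p, a' q p ^ 2) := by
    intro q
    have h1 := hζt q
    simp only [sub_zero] at h1
    refine h1.trans (le_of_eq ?_)
    push_cast
    ring_nf
  have hζ' : ∀ e, s e * ζ (π e) = 1 ∨ s e * ζ (π e) = -1 := by
    intro e
    rcases hs e with h | h <;> rcases hζ (π e) with h' | h' <;> rw [h, h'] <;> norm_num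
  refine ⟨fun e => s e * ζ (π e), hζ', ?_, ?_, ?_⟩
  · intro t i
    rw [T1_sum c π s (a t) i ζ]
    refine (hK (Sum.inl (t, i))).trans ?_
    refine mul_le_mul_of_nonneg_left (Real.sqrt_le_sqrt ?_) (by positivity)
    exact T1_sq c π s (a t) i hs J hπ
  · intro t i
    have h1 : ∀ v, ∑ e with α e = v ∧ c e = i, s e * ζ (π e) =
      ∑ e ∈ XA with α e = v ∧ c e = i, s e * ζ (π e) := by
      intro v
      refine (sum_congr ?_ fun _ _ => rfl).trans ((hsA ζ (v, i)).trans
        (sum_congr ?_ fun _ _ => rfl))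
      · ext e
        simp only [mem_filter, Prod.mk.injEq]
      · ext e
        simp only [mem_filter, Prod.mk.injEq]
    rw [T2_sum α c π s XA (f t) i ζ h1]
    refine (hK (Sum.inr (Sum.inl (t, i)))).trans ?_
    refine mul_le_mul_of_nonneg_left (Real.sqrt_le_sqrt ?_) (by positivity)
    refine T2_sq α c π s XA (f t) i hs J hA2 ?_
    intro v
    refine le_trans (mul_le_mul_of_nonneg_left (Nat.cast_le.2 (card_le_card ?_)) (by positivity))
      ((hXA (v, i)).trans (add_le_add (Nat.cast_le.2 (card_le_card ?_)) le_rfl))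
    · intro e he
      simp only [mem_filter, Prod.mk.injEq] at he ⊢
      exact he
    · intro e he
      simp only [mem_filter, Prod.mk.injEq] at he ⊢
      exact ⟨mem_univ _, he.2.1⟩
  · intro t i
    have h1 : ∀ v, ∑ e with β e = v ∧ c e = i, s e * ζ (π e) =
      ∑ e ∈ XB with β e = v ∧ c e = i, s e * ζ (π e) := by
      intro v
      refine (sum_congr ?_ fun _ _ => rfl).trans ((hsB ζ (v, i)).trans
        (sum_congr ?_ fun _ _ => rfl))
      · ext e
        simp only [mem_filter, Prod.mk.injEq]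
      · ext e
        simp only [mem_filter, Prod.mk.injEq]
    rw [T2_sum β c π s XB (f t) i ζ h1]
    refine (hK (Sum.inr (Sum.inr (t, i)))).trans ?_
    refine mul_le_mul_of_nonneg_left (Real.sqrt_le_sqrt ?_) (by positivity)
    refine T2_sq β c π s XB (f t) i hs J hB2 ?_
    intro v
    refine le_trans (mul_le_mul_of_nonneg_left (Nat.cast_le.2 (card_le_card ?_)) (by positivity))
      ((hXB (v, i)).trans (add_le_add (Nat.cast_le.2 (card_le_card ?_)) le_rfl))
    · intro e he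
      simp only [mem_filter, Prod.mk.injEq] at he ⊢
      exact he
    · intro e he
      simp only [mem_filter, Prod.mk.injEq] at he ⊢
      exact ⟨mem_univ _, he.2.1⟩


/-- one bit of the new cell number -/
theorem bit_ind {q : ℕ} {ε : ℝ} (hε : ε = 1 ∨ ε = -1) (i : ℕ) :
    (if 2 * q + (if ε = 1 then 1 else 0) = i then (1 : ℝ) else 0) =
      (if q = i / 2 then (1 : ℝ) else 0) * ((1 + (if i % 2 = 1 then 1 else -1) * ε) / 2) := by
  rcases hε with h | h
  · have hne : (if ε = 1 then 1 else 0 : ℕ) = 1 := if_pos h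
    rw [hne, h]
    by_cases h1 : q = i / 2
    · rw [if_pos h1]
      by_cases h2 : i % 2 = 1
      · rw [if_pos h2, if_pos (by omega)]
        norm_num
      · rw [if_neg h2, if_neg (by omega)]
        norm_num
    · rw [if_neg h1, if_neg (by omega)]
      norm_num
  · have hne : (if ε = 1 then 1 else 0 : ℕ) = 0 := if_neg (by rw [h]; norm_num)
    rw [hne, h]
    by_cases h1 : q = i / 2
    · rw [if_pos h1]
      by_cases h2 : i % 2 = 1
      · rw [if_pos h2, if_neg (by omega)]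
        norm_num
      · rw [if_neg h2, if_pos (by omega)]
        norm_num
    · rw [if_neg h1, if_neg (by omega)]
      norm_num

theorem abs_half {x y Y : ℝ} (σ : ℝ) (hσ : |σ| = 1) (hx : |x| ≤ Y) (hy : |y| ≤ Y) :
    |x / 2 + σ / 2 * y| ≤ Y := by
  have h1 : |x / 2 + σ / 2 * y| ≤ |x / 2| + |σ / 2 * y| := abs_add_le _ _
  have h2 : |x / 2| = |x| / 2 := by rw [abs_div, abs_of_pos (by norm_num : (0 : ℝ) < 2)]
  have h3 : |σ / 2 * y| = |y| / 2 := by
    rw [abs_mul, abs_div, hσ, abs_of_pos (by norm_num : (0 : ℝ) < 2)]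
    ring
  linarith

theorem sg_abs (i : ℕ) : |(if i % 2 = 1 then (1 : ℝ) else -1)| = 1 := by
  by_cases h : i % 2 = 1
  · rw [if_pos h, abs_one]
  · rw [if_neg h, abs_neg, abs_one]

/-- all halvings -/
theorem cells (hT : Stmt_TRAIL.{u}) {E V τ τ' : Type u} [Fintype E] [Fintype V] [Fintype τ]
    [Fintype τ'] (α β : E → V) (a : τ → E → ℝ) (f : τ' → V → ℝ)
    (J : ℕ) (S D Λ : ℝ) (hS0 : 0 ≤ S) (hD2 : 2 ≤ D) (hJD : (2 : ℝ) ^ J ≤ D) (hΛ : 0 ≤ Λ)
    (hL : 32 * Real.exp (-Λ) * (S * D + 1) * (4 * (3 * (S * D)) + 1) ≤ 1)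
    (hα : ∀ v, ((univ.filter fun e => α e = v).card : ℝ) ≤ D)
    (hβ : ∀ v, ((univ.filter fun e => β e = v).card : ℝ) ≤ D)
    (ha1 : ∀ t, ((univ.filter fun e => a t e ≠ 0).card : ℝ) ≤ S)
    (ha2 : ∀ e, ((univ.filter fun t => a t e ≠ 0).card : ℝ) ≤ S)
    (hf1 : ∀ t, ((univ.filter fun v => f t v ≠ 0).card : ℝ) ≤ S)
    (hf2 : ∀ v, ((univ.filter fun t => f t v ≠ 0).card : ℝ) ≤ S) (k : ℕ) :
    ∃ q : E → ℕ, (∀ e, q e < 2 ^ k) ∧
      (∀ t i, i < 2 ^ k → |∑ e, a t e * ((if q e = i then 1 else 0) - 1 / 2 ^ k)| ≤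
        2 * (Real.sqrt (32 * Λ) + 1) * Real.sqrt (2 ^ J * ∑ e, a t e ^ 2)) ∧
      (∀ t i, i < 2 ^ k → |∑ v, f t v * (((univ.filter fun e => α e = v ∧ q e = i).card : ℝ) -
          ((univ.filter fun e => α e = v).card : ℝ) / 2 ^ k)| ≤
        2 * (Real.sqrt (32 * Λ) + 1) * Real.sqrt (∑ v, f t v ^ 2 *
          (2 * (((univ.filter fun e => α e = v).card : ℝ) / 2 ^ J + 3)))) ∧
      (∀ t i, i < 2 ^ k → |∑ v, f t v * (((univ.filter fun e => β e = v ∧ q e = i).card : ℝ) -
          ((univ.filter fun e => β e = v).card : ℝ) / 2 ^ k)| ≤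
        2 * (Real.sqrt (32 * Λ) + 1) * Real.sqrt (∑ v, f t v ^ 2 *
          (2 * (((univ.filter fun e => β e = v).card : ℝ) / 2 ^ J + 3)))) := by
  induction k with
  | zero =>
    have hv : ∀ (γ : E → V) (t : τ') (i : ℕ), i < 2 ^ 0 →
        ∑ v, f t v * (((univ.filter fun e => γ e = v ∧ (0 : ℕ) = i).card : ℝ) -
          ((univ.filter fun e => γ e = v).card : ℝ) / 2 ^ 0) = 0 := by
      intro γ t i hi
      have hi0 : i = 0 := by
        rw [pow_zero] at hi
        omega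
      refine sum_eq_zero fun v _ => ?_
      have h1 : (univ.filter fun e => γ e = v ∧ (0 : ℕ) = i) =
          univ.filter fun e => γ e = v := by
        refine filter_congr fun e _ => ?_
        rw [hi0]
        simp
      rw [h1, pow_zero, div_one, sub_self, mul_zero]
    refine ⟨fun _ => 0, fun _ => by norm_num, ?_, ?_, ?_⟩
    · intro t i hi
      have hi0 : i = 0 := by
        rw [pow_zero] at hi
        omega
      have h1 : ∑ e, a t e * ((if (0 : ℕ) = i then (1 : ℝ) else 0) - 1 / 2 ^ 0) = 0 := by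
        refine sum_eq_zero fun e _ => ?_
        rw [hi0, if_pos rfl, pow_zero, div_one, sub_self, mul_zero]
      rw [h1, abs_zero]
      positivity
    · intro t i hi
      rw [hv α t i hi, abs_zero]
      positivity
    · intro t i hi
      rw [hv β t i hi, abs_zero]
      positivity
  | succ k ih =>
    obtain ⟨q, hq, h1, h2, h3⟩ := ih
    obtain ⟨ε, hε, e1, e2, e3⟩ := half hT α β (fun e => (⟨q e, hq e⟩ : Fin (2 ^ k))) a f J S D Λ
      hS0 hD2 hJD hΛ hL hα hβ ha1 ha2 hf1 hf2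
    have hil : ∀ i, i < 2 ^ (k + 1) → i / 2 < 2 ^ k := by
      intro i hi
      rw [pow_succ] at hi
      omega
    have hfe : ∀ (i : ℕ) (hi : i / 2 < 2 ^ k) (g : E → ℝ),
        ∑ e with (⟨q e, hq e⟩ : Fin (2 ^ k)) = ⟨i / 2, hi⟩, g e =
          ∑ e, (if q e = i / 2 then (1 : ℝ) else 0) * g e := by
      intro i hi g
      rw [sum_filter]
      refine sum_congr rfl fun e _ => ?_
      by_cases h : q e = i / 2
      · rw [if_pos (Fin.ext h), if_pos h, one_mul]
      · rw [if_neg (fun h' => h (congrArg Fin.val h')), if_neg h, zero_mul]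
    have hfe2 : ∀ (γ : E → V) (v : V) (i : ℕ) (hi : i / 2 < 2 ^ k) (g : E → ℝ),
        ∑ e with γ e = v ∧ (⟨q e, hq e⟩ : Fin (2 ^ k)) = ⟨i / 2, hi⟩, g e =
          ∑ e with γ e = v, (if q e = i / 2 then (1 : ℝ) else 0) * g e := by
      intro γ v i hi g
      rw [← filter_filter, sum_filter]
      refine sum_congr rfl fun e _ => ?_
      by_cases h : q e = i / 2
      · rw [if_pos (Fin.ext h), if_pos h, one_mul]
      · rw [if_neg (fun h' => h (congrArg Fin.val h')), if_neg h, zero_mul]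
    have hcd : ∀ (γ : E → V) (v : V) (q : E → ℕ) (i : ℕ),
        ((univ.filter fun e => γ e = v ∧ q e = i).card : ℝ) =
          ∑ e with γ e = v, (if q e = i then (1 : ℝ) else 0) := by
      intro γ v q i
      rw [← filter_filter, card_filter]
      push_cast
      rfl
    set q' : E → ℕ := fun e => 2 * q e + (if ε e = 1 then 1 else 0) with hq'
    have hV : ∀ (γ : E → V) (t : τ') (i : ℕ) (hi : i < 2 ^ (k + 1)),
        ∑ v, f t v * (((univ.filter fun e => γ e = v ∧ q' e = i).card : ℝ) -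
          ((univ.filter fun e => γ e = v).card : ℝ) / 2 ^ (k + 1)) =
        (∑ v, f t v * (((univ.filter fun e => γ e = v ∧ q e = i / 2).card : ℝ) -
          ((univ.filter fun e => γ e = v).card : ℝ) / 2 ^ k)) / 2 +
        (if i % 2 = 1 then 1 else -1) / 2 * ∑ v, f t v *
          ∑ e with γ e = v ∧ (⟨q e, hq e⟩ : Fin (2 ^ k)) = ⟨i / 2, hil i hi⟩, ε e := by
      intro γ t i hi
      rw [sum_div, mul_sum, ← sum_add_distrib]
      refine sum_congr rfl fun v _ => ?_
      rw [hcd γ v q' i, hcd γ v q (i / 2), hfe2 γ v i (hil i hi) ε]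
      have h5 : ∑ e with γ e = v, (if q' e = i then (1 : ℝ) else 0) =
          (∑ e with γ e = v, (if q e = i / 2 then (1 : ℝ) else 0)) / 2 +
          (if i % 2 = 1 then 1 else -1) / 2 *
            ∑ e with γ e = v, (if q e = i / 2 then (1 : ℝ) else 0) * ε e := by
        rw [sum_div, mul_sum, ← sum_add_distrib]
        refine sum_congr rfl fun e _ => ?_
        rw [hq']
        simp only
        rw [bit_ind (hε e) i]
        ring
      rw [h5, pow_succ]
      field_simp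
      ring
    refine ⟨q', ?_, ?_, ?_, ?_⟩
    · intro e
      have h4 := hq e
      rw [hq', pow_succ]
      simp only
      split_ifs <;> omega
    · intro t i hi
      have h4 : ∑ e, a t e * ((if q' e = i then 1 else 0) - 1 / 2 ^ (k + 1)) =
          (∑ e, a t e * ((if q e = i / 2 then 1 else 0) - 1 / 2 ^ k)) / 2 +
          (if i % 2 = 1 then 1 else -1) / 2 *
            ∑ e with (⟨q e, hq e⟩ : Fin (2 ^ k)) = ⟨i / 2, hil i hi⟩, a t e * ε e := by
        rw [hfe i (hil i hi), sum_div, mul_sum, ← sum_add_distrib]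
        refine sum_congr rfl fun e _ => ?_
        rw [hq']
        simp only
        rw [bit_ind (hε e) i, pow_succ]
        field_simp
        ring
      rw [h4]
      exact abs_half _ (sg_abs i) (h1 t (i / 2) (hil i hi)) (e1 t _)
    · intro t i hi
      rw [hV α t i hi]
      exact abs_half _ (sg_abs i) (h2 t (i / 2) (hil i hi)) (e2 t _)
    · intro t i hi
      rw [hV β t i hi]
      exact abs_half _ (sg_abs i) (h3 t (i / 2) (hil i hi)) (e3 t _)

/-- the vertex bound in the form of the statement -/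
theorem sqrt_bd {V : Type u} [Fintype V] (f g : V → ℝ) (hg : ∀ v, 0 ≤ g v) {J : ℕ} {x K L : ℝ}
    (hx : 0 < x) (hJ : x ≤ 2 * 2 ^ J) (hK : 0 ≤ K) (hKL : 3 * K ≤ L) :
    K * Real.sqrt (∑ v, f v ^ 2 * (2 * (g v / 2 ^ J + 3))) ≤
      L * Real.sqrt (∑ v, f v ^ 2 * (g v / x + 1)) := by
  have hJ0 : (0 : ℝ) < 2 ^ J := by positivity
  have h1 : ∑ v, f v ^ 2 * (2 * (g v / 2 ^ J + 3)) ≤
      3 ^ 2 * ∑ v, f v ^ 2 * (g v / x + 1) := by
    rw [mul_sum]
    refine sum_le_sum fun v _ => ?_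
    have h2 : g v / 2 ^ J ≤ 2 * (g v / x) := by
      rw [← mul_div_assoc, div_le_div_iff₀ hJ0 hx]
      have := mul_le_mul_of_nonneg_left hJ (hg v)
      linarith
    have h3 : 0 ≤ g v / x := div_nonneg (hg v) hx.le
    calc f v ^ 2 * (2 * (g v / 2 ^ J + 3)) ≤ f v ^ 2 * (3 ^ 2 * (g v / x + 1)) := by
          refine mul_le_mul_of_nonneg_left ?_ (sq_nonneg _)
          linarith
      _ = 3 ^ 2 * (f v ^ 2 * (g v / x + 1)) := by ring
  have h4 : Real.sqrt (∑ v, f v ^ 2 * (2 * (g v / 2 ^ J + 3))) ≤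
      3 * Real.sqrt (∑ v, f v ^ 2 * (g v / x + 1)) := by
    refine (Real.sqrt_le_sqrt h1).trans (le_of_eq ?_)
    rw [Real.sqrt_mul (by norm_num), Real.sqrt_sq (by norm_num)]
  have h5 := Real.sqrt_nonneg (∑ v, f v ^ 2 * (g v / x + 1))
  calc K * Real.sqrt (∑ v, f v ^ 2 * (2 * (g v / 2 ^ J + 3)))
      ≤ K * (3 * Real.sqrt (∑ v, f v ^ 2 * (g v / x + 1))) := mul_le_mul_of_nonneg_left h4 hK
    _ = (3 * K) * Real.sqrt (∑ v, f v ^ 2 * (g v / x + 1)) := by ring
    _ ≤ _ := mul_le_mul_of_nonneg_right hKL h5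

theorem stmt_CELL (hT : Stmt_TRAIL.{u}) : Stmt_CELL.{u} := by
  intro k A γ hA hγ hγ2
  set C0 : ℝ := 6 * (Real.sqrt (32 * (2 * A + 4)) + 1) with hC0
  have hC00 : 0 ≤ C0 := by positivity
  refine ⟨max 29 ⌈Real.exp (max 1 C0)⌉₊, ?_⟩
  intro E V τ τ' _ _ _ _ α β d a f hd hα hβ ha hf
  have hd29 : 29 ≤ d := le_trans (le_max_left _ _) hd
  have hd29' : (29 : ℝ) ≤ d := by exact_mod_cast hd29
  have hd0 : (0 : ℝ) < d := by linarith
  have hd1 : (1 : ℝ) ≤ d := by linarith
  have hexp : Real.exp (max 1 C0) ≤ d :=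
    (Nat.le_ceil _).trans (by exact_mod_cast le_trans (le_max_right _ _) hd)
  set L : ℝ := Real.log d with hL
  have hL0 : max 1 C0 ≤ L := by
    rw [hL, Real.le_log_iff_exp_le hd0]
    exact hexp
  have hL1 : 1 ≤ L := (le_max_left _ _).trans hL0
  have hLC : C0 ≤ L := (le_max_right _ _).trans hL0
  set Λ : ℝ := (2 * A + 4) * L with hΛ
  have hΛ0 : 0 ≤ Λ := by positivity
  -- the constant of the local lemma
  set K : ℝ := 2 * (Real.sqrt (32 * Λ) + 1) with hK
  have hK0 : 0 ≤ K := by positivity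
  have hKL : 3 * K ≤ L ^ 2 := by
    have h1 : Real.sqrt (32 * Λ) ≤ Real.sqrt (32 * (2 * A + 4)) * L := by
      have h2 : 32 * Λ = (32 * (2 * A + 4)) * L := by rw [hΛ]; ring
      rw [h2, Real.sqrt_mul (by positivity)]
      refine mul_le_mul_of_nonneg_left ?_ (Real.sqrt_nonneg _)
      rw [Real.sqrt_le_left (by linarith)]
      nlinarith
    have h3 : 3 * K ≤ C0 * L := by
      rw [hK, hC0]
      nlinarith
    nlinarith
  obtain ⟨J, hJ1, hJ2⟩ := exists_nat_pow_near (x := (d : ℝ) ^ γ) (y := 2)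
    (Real.one_le_rpow hd1 hγ.le) (by norm_num)
  have hγd : (d : ℝ) ^ γ ≤ d := by
    calc (d : ℝ) ^ γ ≤ (d : ℝ) ^ (1 : ℝ) := Real.rpow_le_rpow_of_exponent_le hd1 (by linarith)
      _ = d := Real.rpow_one _
  have hS1 : (1 : ℝ) ≤ (d : ℝ) ^ A := Real.one_le_rpow hd1 hA.le
  have hexpΛ : Real.exp (-Λ) = (((d : ℝ) ^ A * d) ^ 2 * d ^ 2)⁻¹ := by
    have h1 : Real.exp Λ = ((d : ℝ) ^ A * d) ^ 2 * d ^ 2 := by
      have h2 : Λ = L * (A + A + 4) := by rw [hΛ]; ring
      rw [h2, hL, ← Real.rpow_def_of_pos hd0, Real.rpow_add hd0, Real.rpow_add hd0]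
      have h3 : (d : ℝ) ^ (4 : ℝ) = (d : ℝ) ^ (4 : ℕ) := by
        rw [← Real.rpow_natCast]
        norm_num
      rw [h3]
      ring
    rw [Real.exp_neg, h1]
  obtain ⟨q, hq, c1, c2, c3⟩ := cells hT α β a f J ((d : ℝ) ^ A) d Λ (by positivity)
    (by linarith) (hJ1.trans hγd) hΛ0 (by
      rw [hexpΛ]
      set Y : ℝ := (d : ℝ) ^ A * d with hY
      have hY1 : 1 ≤ Y := by nlinarith
      have hYp : 0 < Y ^ 2 * (d : ℝ) ^ 2 := by positivity
      have h2 : 32 * (Y ^ 2 * (d : ℝ) ^ 2)⁻¹ * (Y + 1) * (4 * (3 * Y) + 1) =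
          (32 * ((Y + 1) * (12 * Y + 1))) / (Y ^ 2 * (d : ℝ) ^ 2) := by
        rw [div_eq_mul_inv]
        ring
      rw [h2, div_le_one hYp]
      have h3 : (Y + 1) * (12 * Y + 1) ≤ 26 * Y ^ 2 := by nlinarith
      have h4 : (832 : ℝ) ≤ (d : ℝ) ^ 2 := by nlinarith
      have h5 : 832 * Y ^ 2 ≤ (d : ℝ) ^ 2 * Y ^ 2 := mul_le_mul_of_nonneg_right h4 (by positivity)
      linarith) hα hβ ha.sp ha.mu hf.sp hf.mu k
  refine ⟨q, hq, ?_, ?_, ?_⟩
  · intro t i hi
    refine (c1 t i hi).trans ?_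
    have h1 : Real.sqrt (2 ^ J * ∑ e, a t e ^ 2) ≤
        (d : ℝ) ^ (γ / 2) * Real.sqrt (∑ e, a t e ^ 2) := by
      have h2 : (d : ℝ) ^ (γ / 2) = Real.sqrt ((d : ℝ) ^ γ) := by
        rw [Real.sqrt_eq_rpow, ← Real.rpow_mul hd0.le]
        congr 1
        ring
      rw [h2, ← Real.sqrt_mul (by positivity)]
      refine Real.sqrt_le_sqrt ?_
      exact mul_le_mul_of_nonneg_right hJ1 (sum_nonneg fun e _ => sq_nonneg _)
    have h3 : K ≤ L ^ 2 := by linarith
    calc K * Real.sqrt (2 ^ J * ∑ e, a t e ^ 2)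
        ≤ L ^ 2 * ((d : ℝ) ^ (γ / 2) * Real.sqrt (∑ e, a t e ^ 2)) :=
          mul_le_mul h3 h1 (Real.sqrt_nonneg _) (by positivity)
      _ = _ := by ring
  · intro t i hi
    refine (c2 t i hi).trans ?_
    exact sqrt_bd (f t) (fun v => ((univ.filter fun e => α e = v).card : ℝ))
      (fun v => Nat.cast_nonneg _) (by positivity) (by rw [pow_succ] at hJ2; linarith) hK0 hKL
  · intro t i hi
    refine (c3 t i hi).trans ?_
    exact sqrt_bd (f t) (fun v => ((univ.filter fun e => β e = v).card : ℝ))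
      (fun v => Nat.cast_nonneg _) (by positivity) (by rw [pow_succ] at hJ2; linarith) hK0 hKL

end Pool.Agent.Work.MP_db9399_ts.helper83
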